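import Mathlib
import Pool.Agent.TH650.GB.CB

/-! # Log-sum-exp potentials: gradient, Hessian, convexity -/

set_option autoImplicit false

open Finset Matrix

noncomputable section

namespace Pool.Agent.TH650.GB

variable {ι S : Type*} [Fintype ι] [Fintype S]

/-- partition function -/
def Zf (ω : S → ℝ) (p : S → ι → ℝ) (ξ : ι → ℝ) : ℝ := ∑ i, ω i * Real.exp (p i ⬝ᵥ ξ)

/-- Gibbs weights -/
def mu (ω : S → ℝ) (p : S → ι → ℝ) (i : S) (ξ : ι → ℝ) : ℝ :=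
  ω i * Real.exp (p i ⬝ᵥ ξ) / Zf ω p ξ

/-- gradient of the log-sum-exp potential -/
def gr (ω : S → ℝ) (p : S → ι → ℝ) (ξ : ι → ℝ) : ι → ℝ := fun k => ∑ i, mu ω p i ξ * p i k

/-- Hessian of the log-sum-exp potential -/
def hes (ω : S → ℝ) (p : S → ι → ℝ) (ξ : ι → ℝ) : Matrix ι ι ℝ :=
  ∑ r : S × S, (mu ω p r.1 ξ * mu ω p r.2 ξ / 2) • vecMulVec (p r.1 - p r.2) (p r.1 - p r.2)

/-- admissible weights -/
def Adm (ω : S → ℝ) : Prop := (∀ i, 0 ≤ ω i) ∧ ∃ i, 0 < ω i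

theorem Zf_pos {ω : S → ℝ} (hω : Adm ω) (p : S → ι → ℝ) (ξ : ι → ℝ) : 0 < Zf ω p ξ := by
  obtain ⟨h0, i, hi⟩ := hω
  exact Finset.sum_pos' (fun j _ => mul_nonneg (h0 j) (Real.exp_pos _).le)
    ⟨i, Finset.mem_univ _, mul_pos hi (Real.exp_pos _)⟩

theorem mu_nonneg {ω : S → ℝ} (hω : Adm ω) (p : S → ι → ℝ) (i : S) (ξ : ι → ℝ) :
    0 ≤ mu ω p i ξ :=
  div_nonneg (mul_nonneg (hω.1 i) (Real.exp_pos _).le) (Zf_pos hω p ξ).le

theorem mu_pos {ω : S → ℝ} (hω : Adm ω) (p : S → ι → ℝ) {i : S} (hi : 0 < ω i) (ξ : ι → ℝ) :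
    0 < mu ω p i ξ :=
  div_pos (mul_pos hi (Real.exp_pos _)) (Zf_pos hω p ξ)

theorem mu_zero (ω : S → ℝ) (p : S → ι → ℝ) {i : S} (hi : ω i = 0) (ξ : ι → ℝ) :
    mu ω p i ξ = 0 := by
  simp [mu, hi]

theorem mu_sum {ω : S → ℝ} (hω : Adm ω) (p : S → ι → ℝ) (ξ : ι → ℝ) : ∑ i, mu ω p i ξ = 1 := by
  unfold mu
  rw [← Finset.sum_div]
  exact div_self (Zf_pos hω p ξ).ne'

/-- the linear functional `η ↦ v ⬝ᵥ η` -/
def dcl (v : ι → ℝ) : (ι → ℝ) →L[ℝ] ℝ := ∑ k, v k • (ContinuousLinearMap.proj k : (ι → ℝ) →L[ℝ] ℝ)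

@[simp] theorem dcl_apply (v η : ι → ℝ) : dcl v η = v ⬝ᵥ η := by
  simp [dcl, dotProduct]

theorem hasFDerivAt_dot (v ξ : ι → ℝ) : HasFDerivAt (fun ξ : ι → ℝ => v ⬝ᵥ ξ) (dcl v) ξ := by
  have h : (fun ξ : ι → ℝ => v ⬝ᵥ ξ) = fun ξ => dcl v ξ := by
    funext ξ; simp
  rw [h]
  exact (dcl v).hasFDerivAt

theorem hasFDerivAt_Zf (ω : S → ℝ) (p : S → ι → ℝ) (ξ : ι → ℝ) :
    HasFDerivAt (Zf ω p) (∑ i, (ω i * Real.exp (p i ⬝ᵥ ξ)) • dcl (p i)) ξ := by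
  unfold Zf
  refine HasFDerivAt.fun_sum fun i _ => ?_
  have h := ((hasFDerivAt_dot (p i) ξ).exp).const_mul (ω i)
  refine h.congr_fderiv ?_
  rw [smul_smul]

theorem hasFDerivAt_mu {ω : S → ℝ} (hω : Adm ω) (p : S → ι → ℝ) (i : S) (ξ : ι → ℝ) :
    HasFDerivAt (mu ω p i) (mu ω p i ξ • dcl (p i - gr ω p ξ)) ξ := by
  have hZ := (Zf_pos hω p ξ).ne'
  have h1 := ((hasFDerivAt_dot (p i) ξ).exp).const_mul (ω i)
  have h2 := (hasFDerivAt_Zf ω p ξ)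
  have h3 := h1.mul ((hasDerivAt_inv hZ).comp_hasFDerivAt ξ h2)
  have h4 : (mu ω p i) = (fun y => (ω i * Real.exp (p i ⬝ᵥ y)) * ((fun z => z⁻¹) ∘ Zf ω p) y) := by
    funext y; simp [mu, div_eq_mul_inv]
  rw [h4]
  refine h3.congr_fderiv ?_
  ext η
  simp only [_root_.add_apply, _root_.smul_apply, smul_eq_mul, dcl_apply,
    _root_.sum_apply, sub_dotProduct]
  have h5 : gr ω p ξ ⬝ᵥ η = (∑ j, (ω j * Real.exp (p j ⬝ᵥ ξ)) * (p j ⬝ᵥ η)) / Zf ω p ξ := by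
    have e1 : gr ω p ξ ⬝ᵥ η = ∑ j, mu ω p j ξ * (p j ⬝ᵥ η) := by
      have e2 : gr ω p ξ ⬝ᵥ η = ∑ k, (∑ i, mu ω p i ξ * p i k) * η k := rfl
      rw [e2]
      simp_rw [Finset.sum_mul]
      rw [Finset.sum_comm]
      refine Finset.sum_congr rfl fun j _ => ?_
      have e3 : p j ⬝ᵥ η = ∑ k, p j k * η k := rfl
      rw [e3, Finset.mul_sum]
      exact Finset.sum_congr rfl fun k _ => by ring
    rw [e1, Finset.sum_div]
    refine Finset.sum_congr rfl fun j _ => ?_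
    unfold mu
    ring
  rw [h5]
  simp only [Function.comp_apply]
  field_simp
  ring

theorem cov_id (m a b : S → ℝ) (hm : ∑ i, m i = 1) :
    ∑ r : S × S, (m r.1 * m r.2 / 2) * ((a r.1 - a r.2) * (b r.1 - b r.2)) =
      ∑ i, m i * (a i * b i) - (∑ i, m i * a i) * (∑ i, m i * b i) := by
  rw [Fintype.sum_prod_type]
  have h1 : ∀ i j, (m i * m j / 2) * ((a i - a j) * (b i - b j)) =
      (m i * (a i * b i)) * m j / 2 + m i * (m j * (a j * b j)) / 2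
        - ((m i * a i) * (m j * b j) / 2 + (m i * b i) * (m j * a j) / 2) := by
    intro i j; ring
  simp_rw [h1, Finset.sum_sub_distrib, Finset.sum_add_distrib, ← Finset.sum_div, ← Finset.mul_sum, ← Finset.sum_mul,
    hm]
  ring

theorem hes_mulVec {ω : S → ℝ} (hω : Adm ω) (p : S → ι → ℝ) (ξ η : ι → ℝ) (k : ι) :
    (hes ω p ξ).mulVec η k = ∑ i, mu ω p i ξ * (p i k * (p i ⬝ᵥ η)) - gr ω p ξ k * (gr ω p ξ ⬝ᵥ η) := by
  have h1 : (hes ω p ξ).mulVec η k = ∑ r : S × S, (mu ω p r.1 ξ * mu ω p r.2 ξ / 2) *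
      ((p r.1 k - p r.2 k) * (p r.1 ⬝ᵥ η - p r.2 ⬝ᵥ η)) := by
    unfold hes
    rw [Matrix.sum_mulVec, Finset.sum_apply]
    refine Finset.sum_congr rfl fun r _ => ?_
    rw [Matrix.smul_mulVec, Pi.smul_apply, smul_eq_mul]
    congr 1
    rw [← sub_dotProduct]
    simp [Matrix.mulVec, vecMulVec_apply, dotProduct, Finset.mul_sum, mul_assoc]
  rw [h1, cov_id (fun i => mu ω p i ξ) (fun i => p i k) (fun i => p i ⬝ᵥ η) (mu_sum hω p ξ)]
  congr 1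
  congr 1
  have e2 : gr ω p ξ ⬝ᵥ η = ∑ k, (∑ i, mu ω p i ξ * p i k) * η k := rfl
  rw [e2]
  simp_rw [Finset.sum_mul]
  rw [Finset.sum_comm]
  refine Finset.sum_congr rfl fun j _ => ?_
  have e3 : p j ⬝ᵥ η = ∑ k, p j k * η k := rfl
  rw [e3, Finset.mul_sum]
  exact Finset.sum_congr rfl fun k _ => by ring

/-- a square matrix as a continuous linear map -/
def mcl (M : Matrix ι ι ℝ) : (ι → ℝ) →L[ℝ] (ι → ℝ) := by
  classical exact LinearMap.toContinuousLinearMap (Matrix.mulVecLin M)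

@[simp] theorem mcl_apply (M : Matrix ι ι ℝ) (η : ι → ℝ) : mcl M η = M.mulVec η := rfl

theorem mcl_det [DecidableEq ι] (M : Matrix ι ι ℝ) : (mcl M).det = M.det := by
  have h : (mcl M).det = LinearMap.det (Matrix.mulVecLin M) := rfl
  rw [h, ← Matrix.toLin'_apply', LinearMap.det_toLin']

theorem hasFDerivAt_gr {ω : S → ℝ} (hω : Adm ω) (p : S → ι → ℝ) (ξ : ι → ℝ) :
    HasFDerivAt (gr ω p) (mcl (hes ω p ξ)) ξ := by
  rw [hasFDerivAt_pi']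
  intro k
  have h1 : HasFDerivAt (fun ξ => ∑ i, mu ω p i ξ * p i k)
      (∑ i, (p i k) • (mu ω p i ξ • dcl (p i - gr ω p ξ))) ξ :=
    HasFDerivAt.fun_sum fun i _ => (hasFDerivAt_mu hω p i ξ).mul_const (p i k)
  refine h1.congr_fderiv ?_
  ext η
  simp only [_root_.sum_apply, _root_.smul_apply, smul_eq_mul, dcl_apply, ContinuousLinearMap.comp_apply,
    ContinuousLinearMap.proj_apply, mcl_apply, sub_dotProduct]
  rw [hes_mulVec hω]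
  have : gr ω p ξ k = ∑ i, mu ω p i ξ * p i k := rfl
  rw [this, Finset.sum_mul, ← Finset.sum_sub_distrib]
  exact Finset.sum_congr rfl fun i _ => by ring

end Pool.Agent.TH650.GB
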