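import Mathlib
import Pool.Agent.TH650.GB.LSE

/-! # Gradient image of a positive combination of log-sum-exp potentials -/

set_option autoImplicit false

open Finset Matrix MeasureTheory Set Filter Topology

noncomputable section

namespace Pool.Agent.TH650.GB

set_option linter.unusedSectionVars false

variable {ι S T : Type*} [Fintype ι] [Fintype S] [Fintype T]

/-- gradient of the total potential -/
def GG (x : T → ℝ) (ω : T → S → ℝ) (p : T → S → ι → ℝ) (ξ : ι → ℝ) : ι → ℝ :=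
  ∑ τ, x τ • gr (ω τ) (p τ) ξ

/-- Hessian of the total potential -/
def HH (x : T → ℝ) (ω : T → S → ℝ) (p : T → S → ι → ℝ) (ξ : ι → ℝ) : Matrix ι ι ℝ :=
  ∑ τ, x τ • hes (ω τ) (p τ) ξ

/-- total potential -/
def FF (x : T → ℝ) (ω : T → S → ℝ) (p : T → S → ι → ℝ) (ξ : ι → ℝ) : ℝ :=
  ∑ τ, x τ * Real.log (Zf (ω τ) (p τ) ξ)

/-- the Minkowski combination of the hulls -/
def QQ (x : T → ℝ) (ω : T → S → ℝ) (p : T → S → ι → ℝ) : Set (ι → ℝ) :=
  {q | ∃ y : T → ι → ℝ, (∀ τ, y τ ∈ convexHull ℝ (p τ '' {i | 0 < ω τ i})) ∧ q = ∑ τ, x τ • y τ}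

theorem convex_QQ (x : T → ℝ) (ω : T → S → ℝ) (p : T → S → ι → ℝ) : Convex ℝ (QQ x ω p) := by
  rintro a ⟨y, hy, rfl⟩ b ⟨z, hz, rfl⟩ s t hs ht hst
  refine ⟨fun τ => s • y τ + t • z τ, fun τ => (convex_convexHull ℝ _) (hy τ) (hz τ) hs ht hst, ?_⟩
  rw [Finset.smul_sum, Finset.smul_sum, ← Finset.sum_add_distrib]
  refine Finset.sum_congr rfl fun τ _ => ?_
  rw [smul_add, smul_comm s, smul_comm t]

theorem hasFDerivAt_GG (x : T → ℝ) {ω : T → S → ℝ} (hω : ∀ τ, Adm (ω τ)) (p : T → S → ι → ℝ) (ξ : ι → ℝ) :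
    HasFDerivAt (GG x ω p) (mcl (HH x ω p ξ)) ξ := by
  have h1 : HasFDerivAt (fun ξ => ∑ τ, x τ • gr (ω τ) (p τ) ξ) (∑ τ, x τ • mcl (hes (ω τ) (p τ) ξ)) ξ :=
    HasFDerivAt.fun_sum fun τ _ => (hasFDerivAt_gr (hω τ) (p τ) ξ).const_smul (x τ)
  refine h1.congr_fderiv ?_
  ext η k
  simp [HH, Matrix.sum_mulVec, Matrix.smul_mulVec, Finset.sum_apply]

theorem quad_hes (ω : S → ℝ) (p : S → ι → ℝ) (ξ η : ι → ℝ) :
    (hes ω p ξ).mulVec η ⬝ᵥ η =
      ∑ r : S × S, (mu ω p r.1 ξ * mu ω p r.2 ξ / 2) * ((p r.1 - p r.2) ⬝ᵥ η) ^ 2 := by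
  unfold hes
  rw [Matrix.sum_mulVec, sum_dotProduct]
  refine Finset.sum_congr rfl fun r _ => ?_
  rw [Matrix.smul_mulVec, smul_dotProduct, smul_eq_mul]
  congr 1
  rw [Matrix.vecMulVec_mulVec, op_smul_eq_smul, smul_dotProduct, smul_eq_mul, sq]

theorem quad_HH (x : T → ℝ) (ω : T → S → ℝ) (p : T → S → ι → ℝ) (ξ η : ι → ℝ) :
    (HH x ω p ξ).mulVec η ⬝ᵥ η = ∑ τ, x τ * ∑ r : S × S, (mu (ω τ) (p τ) r.1 ξ * mu (ω τ) (p τ) r.2 ξ / 2) *
      ((p τ r.1 - p τ r.2) ⬝ᵥ η) ^ 2 := by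
  unfold HH
  rw [Matrix.sum_mulVec, sum_dotProduct]
  refine Finset.sum_congr rfl fun τ _ => ?_
  rw [Matrix.smul_mulVec, smul_dotProduct, smul_eq_mul, quad_hes]

/-- nondegeneracy of a family of points with weights -/
def NDg (ω : T → S → ℝ) (p : T → S → ι → ℝ) : Prop :=
  ∀ η : ι → ℝ, (∀ τ i j, 0 < ω τ i → 0 < ω τ j → (p τ i - p τ j) ⬝ᵥ η = 0) → η = 0

theorem quad_HH_pos {x : T → ℝ} (hx : ∀ τ, 0 < x τ) {ω : T → S → ℝ} (hω : ∀ τ, Adm (ω τ)) {p : T → S → ι → ℝ}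
    (hnd : NDg ω p) (ξ : ι → ℝ) {η : ι → ℝ} (hη : η ≠ 0) : 0 < (HH x ω p ξ).mulVec η ⬝ᵥ η := by
  rw [quad_HH]
  have hex : ∃ τ i j, 0 < ω τ i ∧ 0 < ω τ j ∧ (p τ i - p τ j) ⬝ᵥ η ≠ 0 := by
    by_contra hcon
    push Not at hcon
    exact hη (hnd η fun τ i j hi hj => hcon τ i j hi hj)
  obtain ⟨τ, i, j, hi, hj, hne⟩ := hex
  have hterm : ∀ τ (r : S × S), 0 ≤ (mu (ω τ) (p τ) r.1 ξ * mu (ω τ) (p τ) r.2 ξ / 2) *
      ((p τ r.1 - p τ r.2) ⬝ᵥ η) ^ 2 := by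
    intro τ r
    have := mu_nonneg (hω τ) (p τ) r.1 ξ
    have := mu_nonneg (hω τ) (p τ) r.2 ξ
    positivity
  refine Finset.sum_pos' (fun τ _ => mul_nonneg (hx τ).le (Finset.sum_nonneg fun r _ => hterm τ r))
    ⟨τ, Finset.mem_univ _, mul_pos (hx τ) (Finset.sum_pos' (fun r _ => hterm τ r)
      ⟨(i, j), Finset.mem_univ _, ?_⟩)⟩
  have h1 := mu_pos (hω τ) (p τ) hi ξ
  have h2 := mu_pos (hω τ) (p τ) hj ξ
  have h3 : 0 < ((p τ i - p τ j) ⬝ᵥ η) ^ 2 := by positivity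
  positivity

theorem GG_inj {x : T → ℝ} (hx : ∀ τ, 0 < x τ) {ω : T → S → ℝ} (hω : ∀ τ, Adm (ω τ)) {p : T → S → ι → ℝ}
    (hnd : NDg ω p) : Function.Injective (GG x ω p) := by
  intro a b hab
  by_contra hne
  set d : ι → ℝ := b - a with hd
  have hd0 : d ≠ 0 := sub_ne_zero.mpr (Ne.symm hne)
  let f : ℝ → ℝ := fun θ => GG x ω p (a + θ • d) ⬝ᵥ d
  have hder : ∀ θ, HasDerivAt f ((HH x ω p (a + θ • d)).mulVec d ⬝ᵥ d) θ := by
    intro θ
    have h1 : HasDerivAt (fun θ : ℝ => a + θ • d) d θ := by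
      have := ((hasDerivAt_id θ).smul_const d).const_add a
      simpa using this
    have h2 := (hasFDerivAt_GG x hω p (a + θ • d)).comp_hasDerivAt θ h1
    have h3 := (dcl d).hasFDerivAt.comp_hasDerivAt θ h2
    have h4 : (dcl d ∘ GG x ω p ∘ fun θ : ℝ => a + θ • d) = f := by
      funext θ
      simp [f, dotProduct_comm]
    rw [h4] at h3
    simpa [dotProduct_comm] using h3
  have hmono : StrictMono f := by
    refine strictMono_of_deriv_pos fun θ => ?_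
    rw [(hder θ).deriv]
    exact quad_HH_pos hx hω hnd _ hd0
  have h01 : f 0 < f 1 := hmono zero_lt_one
  have e0 : f 0 = GG x ω p a ⬝ᵥ d := by simp [f]
  have e1 : f 1 = GG x ω p b ⬝ᵥ d := by simp [f, hd]
  rw [e0, e1, hab] at h01
  exact lt_irrefl _ h01

theorem gr_mem {ω : S → ℝ} (hω : Adm ω) (p : S → ι → ℝ) (ξ : ι → ℝ) :
    gr ω p ξ ∈ convexHull ℝ (p '' {i | 0 < ω i}) := by
  classical
  have h1 : gr ω p ξ = ∑ i ∈ Finset.univ.filter (fun i => 0 < ω i), mu ω p i ξ • p i := by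
    rw [Finset.sum_filter]
    funext k
    rw [Finset.sum_apply]
    unfold gr
    refine Finset.sum_congr rfl fun i _ => ?_
    by_cases hi : 0 < ω i
    · simp [hi]
    · have : ω i = 0 := le_antisymm (not_lt.mp hi) (hω.1 i)
      simp [hi, mu_zero ω p this]
  rw [h1]
  refine (convex_convexHull ℝ _).sum_mem (fun i _ => mu_nonneg hω p i ξ) ?_
    (fun i hi => subset_convexHull ℝ _ ⟨i, (Finset.mem_filter.mp hi).2, rfl⟩)
  rw [Finset.sum_filter, ← mu_sum hω p ξ]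
  refine Finset.sum_congr rfl fun i _ => ?_
  by_cases hi : 0 < ω i
  · simp [hi]
  · have : ω i = 0 := le_antisymm (not_lt.mp hi) (hω.1 i)
    simp [hi, mu_zero ω p this]

theorem GG_mem (x : T → ℝ) {ω : T → S → ℝ} (hω : ∀ τ, Adm (ω τ)) (p : T → S → ι → ℝ) (ξ : ι → ℝ) :
    GG x ω p ξ ∈ QQ x ω p :=
  ⟨fun τ => gr (ω τ) (p τ) ξ, fun τ => gr_mem (hω τ) (p τ) ξ, rfl⟩

/-- support function bound -/
theorem hull_le_log {ω : S → ℝ} (hω : Adm ω) (p : S → ι → ℝ) :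
    ∃ C : ℝ, ∀ ξ y, y ∈ convexHull ℝ (p '' {i | 0 < ω i}) → y ⬝ᵥ ξ ≤ Real.log (Zf ω p ξ) + C := by
  refine ⟨∑ i, |Real.log (ω i)|, fun ξ y hy => ?_⟩
  have hc : Convex ℝ {y : ι → ℝ | y ⬝ᵥ ξ ≤ Real.log (Zf ω p ξ) + ∑ i, |Real.log (ω i)|} := by
    intro a ha b hb s t hs ht hst
    simp only [Set.mem_ofPred_eq] at ha hb ⊢
    rw [add_dotProduct, smul_dotProduct, smul_dotProduct, smul_eq_mul, smul_eq_mul]
    have h1 := mul_le_mul_of_nonneg_left ha hs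
    have h2 := mul_le_mul_of_nonneg_left hb ht
    have h3 : s * (Real.log (Zf ω p ξ) + ∑ i, |Real.log (ω i)|) + t * (Real.log (Zf ω p ξ) + ∑ i, |Real.log (ω i)|)
        = Real.log (Zf ω p ξ) + ∑ i, |Real.log (ω i)| := by rw [← add_mul, hst, one_mul]
    linarith
  refine convexHull_min ?_ hc hy
  rintro _ ⟨i, hi, rfl⟩
  simp only [Set.mem_ofPred_eq] at hi ⊢
  have hZ := Zf_pos hω p ξ
  have h1 : ω i * Real.exp (p i ⬝ᵥ ξ) ≤ Zf ω p ξ :=
    Finset.single_le_sum (f := fun i => ω i * Real.exp (p i ⬝ᵥ ξ))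
      (fun j _ => mul_nonneg (hω.1 j) (Real.exp_pos _).le) (Finset.mem_univ i)
  have h2 : Real.log (ω i) + p i ⬝ᵥ ξ ≤ Real.log (Zf ω p ξ) := by
    rw [← Real.log_exp (p i ⬝ᵥ ξ), ← Real.log_mul hi.ne' (Real.exp_pos _).ne']
    exact Real.log_le_log (mul_pos hi (Real.exp_pos _)) (by simpa using h1)
  have h3 : |Real.log (ω i)| ≤ ∑ i, |Real.log (ω i)| :=
    Finset.single_le_sum (f := fun i => |Real.log (ω i)|) (fun j _ => abs_nonneg _) (Finset.mem_univ i)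
  have h4 := neg_abs_le (Real.log (ω i))
  linarith

theorem hasFDerivAt_FF (x : T → ℝ) {ω : T → S → ℝ} (hω : ∀ τ, Adm (ω τ)) (p : T → S → ι → ℝ) (ξ : ι → ℝ) :
    HasFDerivAt (FF x ω p) (dcl (GG x ω p ξ)) ξ := by
  have h1 : HasFDerivAt (fun ξ => ∑ τ, x τ * Real.log (Zf (ω τ) (p τ) ξ))
      (∑ τ, x τ • ((Zf (ω τ) (p τ) ξ)⁻¹ • (∑ i, (ω τ i * Real.exp (p τ i ⬝ᵥ ξ)) • dcl (p τ i)))) ξ :=
    HasFDerivAt.fun_sum fun τ _ =>
      ((hasFDerivAt_Zf (ω τ) (p τ) ξ).log (Zf_pos (hω τ) (p τ) ξ).ne').const_mul (x τ)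
  refine h1.congr_fderiv ?_
  ext η
  simp only [_root_.sum_apply, _root_.smul_apply, smul_eq_mul, dcl_apply, GG, sum_dotProduct, smul_dotProduct]
  refine Finset.sum_congr rfl fun τ _ => ?_
  congr 1
  have e2 : gr (ω τ) (p τ) ξ ⬝ᵥ η = ∑ k, (∑ i, mu (ω τ) (p τ) i ξ * p τ i k) * η k := rfl
  rw [e2]
  simp_rw [Finset.sum_mul]
  rw [Finset.sum_comm, Finset.mul_sum]
  refine Finset.sum_congr rfl fun j _ => ?_
  have e3 : p τ j ⬝ᵥ η = ∑ k, p τ j k * η k := rfl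
  rw [e3, Finset.mul_sum, Finset.mul_sum]
  refine Finset.sum_congr rfl fun k _ => ?_
  unfold mu
  ring

/-- coercivity: every interior point of the hull combination is a gradient -/
theorem GG_surj {x : T → ℝ} (hx : ∀ τ, 0 < x τ) {ω : T → S → ℝ} (hω : ∀ τ, Adm (ω τ)) (p : T → S → ι → ℝ)
    {q : ι → ℝ} (hq : q ∈ interior (QQ x ω p)) : ∃ ξ, GG x ω p ξ = q := by
  classical
  obtain ⟨r, hr, hball⟩ := Metric.mem_nhds_iff.mp (mem_interior_iff_mem_nhds.mp hq)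
  choose C hC using fun τ => hull_le_log (hω τ) (p τ)
  have hlow : ∀ ξ, (r / 2) * ‖ξ‖ - ∑ τ, x τ * C τ ≤ FF x ω p ξ - q ⬝ᵥ ξ := by
    intro ξ
    -- a direction in which the sup norm is attained
    have hdir : ∃ δ : ι → ℝ, ‖δ‖ ≤ 1 ∧ δ ⬝ᵥ ξ = ∑ k, |ξ k| := by
      refine ⟨fun k => SignType.sign (ξ k), ?_, ?_⟩
      · rw [pi_norm_le_iff_of_nonneg zero_le_one]
        intro k
        rcases lt_trichotomy (ξ k) 0 with h | h | h <;> simp [h]
      · simp only [dotProduct]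
        refine Finset.sum_congr rfl fun k _ => ?_
        rcases lt_trichotomy (ξ k) 0 with h | h | h
        · simp [h, abs_of_neg h]
        · simp [h]
        · simp [h, abs_of_pos h]
    obtain ⟨δ, hδ, hδe⟩ := hdir
    have hmem : q + (r / 2) • δ ∈ QQ x ω p := by
      apply hball
      rw [Metric.mem_ball, dist_eq_norm, add_sub_cancel_left, norm_smul, Real.norm_of_nonneg (by positivity)]
      calc r / 2 * ‖δ‖ ≤ r / 2 * 1 := by gcongr
        _ < r := by linarith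
    obtain ⟨y, hy, hqy⟩ := hmem
    have h1 : (q + (r / 2) • δ) ⬝ᵥ ξ ≤ FF x ω p ξ + ∑ τ, x τ * C τ := by
      rw [hqy, sum_dotProduct]
      unfold FF
      rw [← Finset.sum_add_distrib]
      refine Finset.sum_le_sum fun τ _ => ?_
      rw [smul_dotProduct, smul_eq_mul, ← mul_add]
      exact mul_le_mul_of_nonneg_left (hC τ ξ (y τ) (hy τ)) (hx τ).le
    rw [add_dotProduct, smul_dotProduct, smul_eq_mul, hδe] at h1
    have h2 : ‖ξ‖ ≤ ∑ k, |ξ k| := by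
      refine (pi_norm_le_iff_of_nonneg (Finset.sum_nonneg fun k _ => abs_nonneg _)).mpr fun k => ?_
      rw [Real.norm_eq_abs]
      exact Finset.single_le_sum (f := fun k => |ξ k|) (fun j _ => abs_nonneg _) (Finset.mem_univ k)
    have h3 : (r / 2) * ‖ξ‖ ≤ (r / 2) * ∑ k, |ξ k| := by gcongr
    linarith
  have hcont : Continuous fun ξ => FF x ω p ξ - q ⬝ᵥ ξ := by
    refine Continuous.sub ?_ ?_
    · exact continuous_iff_continuousAt.mpr fun ξ => (hasFDerivAt_FF x hω p ξ).continuousAt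
    · exact continuous_iff_continuousAt.mpr fun ξ => (hasFDerivAt_dot q ξ).continuousAt
  have htend : Tendsto (fun ξ => FF x ω p ξ - q ⬝ᵥ ξ) (cocompact (ι → ℝ)) atTop := by
    refine tendsto_atTop_mono hlow ?_
    refine tendsto_atTop_add_const_right _ _ ?_
    exact (tendsto_norm_cocompact_atTop).const_mul_atTop (by positivity)
  obtain ⟨ξ, hξ⟩ := hcont.exists_forall_le htend
  refine ⟨ξ, ?_⟩
  have hd : HasFDerivAt (fun ξ => FF x ω p ξ - q ⬝ᵥ ξ) (dcl (GG x ω p ξ) - dcl q) ξ :=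
    (hasFDerivAt_FF x hω p ξ).sub (hasFDerivAt_dot q ξ)
  have hmin : IsLocalMin (fun ξ => FF x ω p ξ - q ⬝ᵥ ξ) ξ := Filter.Eventually.of_forall hξ
  have h0 := hmin.hasFDerivAt_eq_zero hd
  funext k
  have h1 := congrArg (fun L : (ι → ℝ) →L[ℝ] ℝ => L (Pi.single k 1)) h0
  simp only [_root_.sub_apply, dcl_apply, dotProduct_single, mul_one, _root_.zero_apply] at h1
  linarith

theorem det_HH_eq [DecidableEq ι] (x : T → ℝ) (ω : T → S → ℝ) (p : T → S → ι → ℝ) (ξ : ι → ℝ) :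
    ((Fintype.card ι).factorial : ℝ) * (HH x ω p ξ).det =
      ∑ I : ι → T × (S × S), (∏ a, (x (I a).1 *
        (mu (ω (I a).1) (p (I a).1) (I a).2.1 ξ * mu (ω (I a).1) (p (I a).1) (I a).2.2 ξ / 2))) *
        (Matrix.of fun a => p (I a).1 (I a).2.1 - p (I a).1 (I a).2.2).det ^ 2 := by
  have h1 : HH x ω p ξ = ∑ r : T × (S × S), (x r.1 * (mu (ω r.1) (p r.1) r.2.1 ξ * mu (ω r.1) (p r.1) r.2.2 ξ / 2)) •
      vecMulVec (p r.1 r.2.1 - p r.1 r.2.2) (p r.1 r.2.1 - p r.1 r.2.2) := by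
    unfold HH hes
    rw [Fintype.sum_prod_type]
    refine Finset.sum_congr rfl fun τ _ => ?_
    rw [Finset.smul_sum]
    refine Finset.sum_congr rfl fun r _ => ?_
    rw [smul_smul]
  rw [h1, cb_gram]

/-- **Volume of the hull combination as an integral of the determinant of the Hessian.** -/
theorem lintegral_det_HH [DecidableEq ι] {x : T → ℝ} (hx : ∀ τ, 0 < x τ) {ω : T → S → ℝ}
    (hω : ∀ τ, Adm (ω τ)) {p : T → S → ι → ℝ} (hnd : NDg ω p) :
    ∫⁻ ξ, ENNReal.ofReal |(HH x ω p ξ).det| = volume (QQ x ω p) := by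
  have h1 := lintegral_abs_det_fderiv_eq_addHaar_image volume (s := univ) MeasurableSet.univ
    (fun ξ _ => (hasFDerivAt_GG x hω p ξ).hasFDerivWithinAt) (GG_inj hx hω hnd).injOn
  simp only [mcl_det, Measure.restrict_univ] at h1
  rw [h1]
  refine le_antisymm (measure_mono ?_) ?_
  · rintro _ ⟨ξ, -, rfl⟩
    exact GG_mem x hω p ξ
  · have h2 : volume (QQ x ω p) ≤ volume (interior (QQ x ω p)) := by
      have h3 : QQ x ω p ⊆ interior (QQ x ω p) ∪ frontier (QQ x ω p) := by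
        rw [← closure_eq_interior_union_frontier]
        exact subset_closure
      calc volume (QQ x ω p) ≤ volume (interior (QQ x ω p) ∪ frontier (QQ x ω p)) := measure_mono h3
        _ ≤ volume (interior (QQ x ω p)) + volume (frontier (QQ x ω p)) := measure_union_le _ _
        _ = volume (interior (QQ x ω p)) := by
            have h4 : volume (frontier (QQ x ω p)) = 0 := (convex_QQ x ω p).addHaar_frontier volume
            rw [h4, add_zero]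
    refine h2.trans (measure_mono fun q hq => ?_)
    obtain ⟨ξ, hξ⟩ := GG_surj hx hω p hq
    exact ⟨ξ, mem_univ _, hξ⟩

end Pool.Agent.TH650.GB
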