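import Mathlib
import Pool.Agent.TH650.GB.Grad

/-! # The volume of the hull combination as a polynomial with explicit coefficients -/

set_option autoImplicit false
set_option linter.unusedSectionVars false

open Finset Matrix MeasureTheory Set Filter Topology

noncomputable section

namespace Pool.Agent.TH650.GB

variable {ι S T : Type*} [Fintype ι] [Fintype S] [Fintype T] [DecidableEq ι]

/-- the term of the expansion of the determinant belonging to `I` -/
def fI (ω : T → S → ℝ) (p : T → S → ι → ℝ) (I : ι → T × (S × S)) (ξ : ι → ℝ) : ℝ :=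
  (∏ a, (mu (ω (I a).1) (p (I a).1) (I a).2.1 ξ * mu (ω (I a).1) (p (I a).1) (I a).2.2 ξ / 2)) *
    (Matrix.of fun a => p (I a).1 (I a).2.1 - p (I a).1 (I a).2.2).det ^ 2

/-- its integral -/
def JI (ω : T → S → ℝ) (p : T → S → ι → ℝ) (I : ι → T × (S × S)) : ENNReal :=
  ∫⁻ ξ, ENNReal.ofReal (fI ω p I ξ)

theorem fI_nonneg {ω : T → S → ℝ} (hω : ∀ τ, Adm (ω τ)) (p : T → S → ι → ℝ) (I : ι → T × (S × S)) (ξ : ι → ℝ) :
    0 ≤ fI ω p I ξ := by
  unfold fI
  refine mul_nonneg (Finset.prod_nonneg fun a _ => ?_) (sq_nonneg _)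
  have := mu_nonneg (hω (I a).1) (p (I a).1) (I a).2.1 ξ
  have := mu_nonneg (hω (I a).1) (p (I a).1) (I a).2.2 ξ
  positivity

theorem continuous_mu {ω : S → ℝ} (hω : Adm ω) (p : S → ι → ℝ) (i : S) : Continuous (mu ω p i) :=
  continuous_iff_continuousAt.mpr fun ξ => (hasFDerivAt_mu hω p i ξ).continuousAt

theorem continuous_fI {ω : T → S → ℝ} (hω : ∀ τ, Adm (ω τ)) (p : T → S → ι → ℝ) (I : ι → T × (S × S)) :
    Continuous (fI ω p I) := by
  unfold fI
  refine Continuous.mul (continuous_finsetProd _ fun a _ => ?_) continuous_const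
  exact ((continuous_mu (hω _) _ _).mul (continuous_mu (hω _) _ _)).div_const 2

theorem det_HH_fI (x : T → ℝ) (ω : T → S → ℝ) (p : T → S → ι → ℝ) (ξ : ι → ℝ) :
    ((Fintype.card ι).factorial : ℝ) * (HH x ω p ξ).det = ∑ I : ι → T × (S × S), (∏ a, x (I a).1) * fI ω p I ξ := by
  rw [det_HH_eq]
  refine Finset.sum_congr rfl fun I _ => ?_
  unfold fI
  rw [Finset.prod_mul_distrib]
  ring

theorem expand {x : T → ℝ} (hx : ∀ τ, 0 < x τ) {ω : T → S → ℝ}
    (hω : ∀ τ, Adm (ω τ)) {p : T → S → ι → ℝ} (hnd : NDg ω p) :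
    ∑ I : ι → T × (S × S), ENNReal.ofReal (∏ a, x (I a).1) * JI ω p I =
      ((Fintype.card ι).factorial : ENNReal) * volume (QQ x ω p) := by
  have hxp : ∀ I : ι → T × (S × S), 0 ≤ ∏ a, x (I a).1 := fun I => Finset.prod_nonneg fun a _ => (hx _).le
  have hN : (0 : ℝ) < ((Fintype.card ι).factorial : ℝ) := by exact_mod_cast Nat.factorial_pos _
  have hdet : ∀ ξ, 0 ≤ (HH x ω p ξ).det := by
    intro ξ
    have h := det_HH_fI x ω p ξ
    have h2 : 0 ≤ ∑ I : ι → T × (S × S), (∏ a, x (I a).1) * fI ω p I ξ :=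
      Finset.sum_nonneg fun I _ => mul_nonneg (hxp I) (fI_nonneg hω p I ξ)
    rw [← h] at h2
    exact nonneg_of_mul_nonneg_right h2 hN
  rw [← lintegral_det_HH hx hω hnd]
  have e1 : ((Fintype.card ι).factorial : ENNReal) = ENNReal.ofReal ((Fintype.card ι).factorial : ℝ) := by
    rw [ENNReal.ofReal_natCast]
  rw [e1, ← lintegral_const_mul' _ _ ENNReal.ofReal_ne_top]
  have e2 : ∀ ξ, ENNReal.ofReal ((Fintype.card ι).factorial : ℝ) * ENNReal.ofReal |(HH x ω p ξ).det| =
      ∑ I : ι → T × (S × S), ENNReal.ofReal (∏ a, x (I a).1) * ENNReal.ofReal (fI ω p I ξ) := by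
    intro ξ
    rw [abs_of_nonneg (hdet ξ), ← ENNReal.ofReal_mul hN.le, det_HH_fI,
      ENNReal.ofReal_sum_of_nonneg fun I _ => mul_nonneg (hxp I) (fI_nonneg hω p I ξ)]
    exact Finset.sum_congr rfl fun I _ => ENNReal.ofReal_mul (hxp I)
  simp_rw [e2]
  rw [lintegral_finsetSum]
  · refine Finset.sum_congr rfl fun I _ => ?_
    rw [lintegral_const_mul' _ _ ENNReal.ofReal_ne_top]
    rfl
  · intro I _
    exact (measurable_const.mul ((continuous_fI hω p I).measurable.ennreal_ofReal))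

/-- finiteness of the coefficients -/
theorem JI_lt_top {ω : T → S → ℝ} (hω : ∀ τ, Adm (ω τ)) {p : T → S → ι → ℝ} (hnd : NDg ω p)
    (hfin : volume (QQ (fun _ => (1:ℝ)) ω p) < ⊤) (I : ι → T × (S × S)) : JI ω p I < ⊤ := by
  have h := expand (x := fun _ : T => (1:ℝ)) (fun _ => one_pos) hω hnd
  have h2 : JI ω p I ≤ ∑ I : ι → T × (S × S), ENNReal.ofReal (∏ a : ι, (fun _ : T => (1:ℝ)) (I a).1) * JI ω p I := by
    have := Finset.single_le_sum (f := fun I : ι → T × (S × S) =>
      ENNReal.ofReal (∏ a : ι, (fun _ : T => (1:ℝ)) (I a).1) * JI ω p I) (fun _ _ => zero_le) (Finset.mem_univ I)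
    simpa using this
  refine h2.trans_lt ?_
  rw [h]
  exact ENNReal.mul_lt_top (ENNReal.natCast_lt_top _) hfin

/-- real version of the expansion -/
theorem expand_real {x : T → ℝ} (hx : ∀ τ, 0 < x τ) {ω : T → S → ℝ}
    (hω : ∀ τ, Adm (ω τ)) {p : T → S → ι → ℝ} (hnd : NDg ω p)
    (hfin : volume (QQ (fun _ => (1:ℝ)) ω p) < ⊤) :
    ∑ I : ι → T × (S × S), (∏ a, x (I a).1) * (JI ω p I).toReal =
      ((Fintype.card ι).factorial : ℝ) * (volume (QQ x ω p)).toReal := by
  have h := congrArg ENNReal.toReal (expand hx hω hnd)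
  rw [ENNReal.toReal_mul, ENNReal.toReal_natCast, ENNReal.toReal_sum] at h
  · rw [← h]
    refine Finset.sum_congr rfl fun I _ => ?_
    rw [ENNReal.toReal_mul, ENNReal.toReal_ofReal (Finset.prod_nonneg fun a _ => (hx _).le)]
  · intro I _
    exact ENNReal.mul_ne_top ENNReal.ofReal_ne_top (JI_lt_top hω hnd hfin I).ne

/-- coefficient comparison for polynomials in one positive variable -/
theorem coef_eq {M : ℕ} (a b : ℕ → ℝ)
    (h : ∀ s : ℝ, 0 < s → ∑ i ∈ Finset.range M, a i * s ^ i = ∑ i ∈ Finset.range M, b i * s ^ i)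
    (i : ℕ) (hi : i < M) : a i = b i := by
  let P : Polynomial ℝ := ∑ i ∈ Finset.range M, Polynomial.C (a i) * Polynomial.X ^ i
  let R : Polynomial ℝ := ∑ i ∈ Finset.range M, Polynomial.C (b i) * Polynomial.X ^ i
  have hPR : P = R := by
    refine Polynomial.eq_of_infinite_eval_eq P R ((Set.Ioi_infinite (0:ℝ)).mono fun s hs => ?_)
    simp only [P, R, Set.mem_ofPred_eq, Polynomial.eval_finsetSum, Polynomial.eval_mul, Polynomial.eval_C,
      Polynomial.eval_pow, Polynomial.eval_X]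
    exact h s hs
  have hc := congrArg (fun Q => Polynomial.coeff Q i) hPR
  simpa [P, R, Polynomial.finsetSum_coeff, Polynomial.coeff_C_mul, Polynomial.coeff_X_pow, hi] using hc

/-- top coefficient by a sandwich -/
theorem coef_sandwich {M n : ℕ} (hn : n < M) (g : ℕ → ℝ) (hg : ∀ k, 0 ≤ g k) (c t : ℝ)
    (hlo : ∀ u : ℝ, 0 < u → c * u ^ n ≤ ∑ k ∈ Finset.range M, g k * u ^ k)
    (hup : ∀ u : ℝ, 0 < u → ∑ k ∈ Finset.range M, g k * u ^ k ≤ c * (t + u) ^ n) : g n = c := by
  have hlim : Tendsto (fun u : ℝ => c * (t / u + 1) ^ n) atTop (𝓝 c) := by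
    have h1 : Tendsto (fun u : ℝ => t / u) atTop (𝓝 0) := tendsto_const_nhds.div_atTop tendsto_id
    have h2 : Tendsto (fun u : ℝ => c * (t / u + 1) ^ n) atTop (𝓝 (c * (0 + 1) ^ n)) :=
      ((h1.add_const 1).pow n).const_mul c
    simpa using h2
  have hup' : ∀ u : ℝ, 0 < u → (∑ k ∈ Finset.range M, g k * u ^ k) / u ^ n ≤ c * (t / u + 1) ^ n := by
    intro u hu
    rw [div_le_iff₀ (pow_pos hu n), mul_assoc, ← mul_pow]
    have : (t / u + 1) * u = t + u := by field_simp
    rw [this]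
    exact hup u hu
  have hlo' : ∀ u : ℝ, 0 < u → c ≤ (∑ k ∈ Finset.range M, g k * u ^ k) / u ^ n := by
    intro u hu
    rw [le_div_iff₀ (pow_pos hu n)]
    exact hlo u hu
  have hG : Tendsto (fun u : ℝ => (∑ k ∈ Finset.range M, g k * u ^ k) / u ^ n) atTop (𝓝 c) := by
    refine tendsto_of_tendsto_of_tendsto_of_le_of_le' tendsto_const_nhds hlim ?_ ?_
    · filter_upwards [eventually_gt_atTop (0:ℝ)] with u hu using hlo' u hu
    · filter_upwards [eventually_gt_atTop (0:ℝ)] with u hu using hup' u hu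
  -- coefficients of higher order vanish
  have hz : ∀ k, n < k → k < M → g k = 0 := by
    intro k hk hkM
    by_contra hne
    have hpos : 0 < g k := lt_of_le_of_ne (hg k) (Ne.symm hne)
    have hk1 : ∀ u : ℝ, 1 ≤ u → g k * u ≤ (∑ k ∈ Finset.range M, g k * u ^ k) / u ^ n := by
      intro u hu
      have hu0 : 0 < u := by linarith
      rw [le_div_iff₀ (pow_pos hu0 n)]
      have h1 : g k * u ^ k ≤ ∑ k ∈ Finset.range M, g k * u ^ k :=
        Finset.single_le_sum (f := fun k => g k * u ^ k) (fun i _ => mul_nonneg (hg i) (pow_nonneg hu0.le i))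
          (Finset.mem_range.mpr hkM)
      have h2 : g k * u * u ^ n ≤ g k * u ^ k := by
        rw [mul_assoc, ← pow_succ']
        exact mul_le_mul_of_nonneg_left (pow_le_pow_right₀ hu hk) (hg k)
      exact h2.trans h1
    have ht : Tendsto (fun u : ℝ => g k * u) atTop atTop := tendsto_id.const_mul_atTop hpos
    have ht2 : Tendsto (fun u : ℝ => (∑ k ∈ Finset.range M, g k * u ^ k) / u ^ n) atTop atTop :=
      tendsto_atTop_mono' _ (by filter_upwards [eventually_ge_atTop (1:ℝ)] with u hu using hk1 u hu) ht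
    exact not_tendsto_nhds_of_tendsto_atTop ht2 c hG
  have hlimg : Tendsto (fun u : ℝ => (∑ k ∈ Finset.range M, g k * u ^ k) / u ^ n) atTop (𝓝 (g n)) := by
    have h1 : ∀ k ∈ Finset.range M, Tendsto (fun u : ℝ => g k * u ^ k / u ^ n) atTop
        (𝓝 (if k = n then g n else 0)) := by
      intro k hk
      rcases lt_trichotomy k n with h | h | h
      · rw [if_neg h.ne]
        have h2 : Tendsto (fun u : ℝ => g k * (u ^ (n - k))⁻¹) atTop (𝓝 (g k * 0)) :=
          ((tendsto_pow_atTop (by omega)).inv_tendsto_atTop).const_mul (g k)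
        rw [mul_zero] at h2
        refine h2.congr' ?_
        filter_upwards [eventually_gt_atTop (0:ℝ)] with u hu
        have : u ^ n = u ^ k * u ^ (n - k) := by rw [← pow_add]; congr 1; omega
        rw [this]
        field_simp
      · subst h
        rw [if_pos rfl]
        refine tendsto_const_nhds.congr' ?_
        filter_upwards [eventually_gt_atTop (0:ℝ)] with u hu
        field_simp
      · rw [if_neg h.ne', hz k h (Finset.mem_range.mp hk)]
        simp
    have h2 := tendsto_finsetSum _ h1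
    simp_rw [Finset.sum_div]
    convert h2 using 2
    rw [Finset.sum_ite_eq' (Finset.range M) n, if_pos (Finset.mem_range.mpr hn)]
  exact tendsto_nhds_unique hlimg hG

end Pool.Agent.TH650.GB
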