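import Mathlib
import Pool.Agent.TH650.GB.Expand

/-! # The configuration `K × 0`, `0 × K`, `K × K` or the diagonal of `K` -/

set_option autoImplicit false
set_option linter.unusedSectionVars false

open Finset Matrix MeasureTheory Set Filter Topology
open scoped Pointwise

noncomputable section

namespace Pool.Agent.TH650.GB

variable {n m : ℕ}

/-- the points -/
def Pt (v : Fin m → Fin n → ℝ) (τ : Fin 3) (r : Fin m × Fin m) : Fin n ⊕ Fin n → ℝ :=
  if τ = 0 then Sum.elim (v r.1) 0 else if τ = 1 then Sum.elim 0 (v r.2) else Sum.elim (v r.1) (v r.2)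

/-- weights on pairs -/
def Wt (m : ℕ) (ε : ℝ) (r : Fin m × Fin m) : ℝ := if r.1 = r.2 then 1 else ε

/-- the weights -/
def om (m : ℕ) (ε : ℝ) (τ : Fin 3) : Fin m × Fin m → ℝ := if τ = 2 then Wt m ε else Wt m 0

/-- the polytope -/
abbrev KK (v : Fin m → Fin n → ℝ) : Set (Fin n → ℝ) := convexHull ℝ (Set.range v)

theorem Wt_adm (hm : 0 < m) {ε : ℝ} (hε : 0 ≤ ε) : Adm (Wt m ε) := by
  refine ⟨fun r => ?_, (⟨0, hm⟩, ⟨0, hm⟩), ?_⟩
  · unfold Wt; split_ifs <;> [exact zero_le_one; exact hε]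
  · simp [Wt]

theorem om_adm (hm : 0 < m) {ε : ℝ} (hε : 0 ≤ ε) (τ : Fin 3) : Adm (om m ε τ) := by
  unfold om
  split_ifs
  · exact Wt_adm hm hε
  · exact Wt_adm hm le_rfl

theorem Wt_zero_pos_iff (r : Fin m × Fin m) : 0 < Wt m 0 r ↔ r.1 = r.2 := by
  unfold Wt; split_ifs with h <;> simp [h]

theorem Wt_pos {ε : ℝ} (hε : 0 < ε) (r : Fin m × Fin m) : 0 < Wt m ε r := by
  unfold Wt; split_ifs <;> [exact one_pos; exact hε]

theorem m_pos {v : Fin m → Fin n → ℝ} (hK : (interior (KK v)).Nonempty) : 0 < m := by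
  rcases Nat.eq_zero_or_pos m with h | h
  · subst h
    exfalso
    have : KK v = ∅ := by
      unfold KK
      rw [Set.range_eq_empty, convexHull_empty]
    rw [this, interior_empty] at hK
    exact Set.not_nonempty_empty hK
  · exact h

/-- the differences of the points span -/
theorem span_of_interior {v : Fin m → Fin n → ℝ} (hK : (interior (KK v)).Nonempty) (η : Fin n → ℝ)
    (h : ∀ a b, (v a - v b) ⬝ᵥ η = 0) : η = 0 := by
  have hm := m_pos hK
  obtain ⟨y, hy⟩ := hK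
  set a0 : Fin m := ⟨0, hm⟩
  have hsub : KK v ⊆ {z | z ⬝ᵥ η = v a0 ⬝ᵥ η} := by
    refine convexHull_min ?_ ?_
    · rintro _ ⟨a, rfl⟩
      have := h a a0
      rw [sub_dotProduct, sub_eq_zero] at this
      exact this
    · intro a ha b hb s t _ _ hst
      simp only [Set.mem_ofPred_eq] at ha hb ⊢
      rw [add_dotProduct, smul_dotProduct, smul_dotProduct, ha, hb, ← add_smul, hst, one_smul]
  obtain ⟨r, hr, hball⟩ := Metric.mem_nhds_iff.mp (mem_interior_iff_mem_nhds.mp hy)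
  by_contra hη
  have hnorm : 0 < ‖η‖ := norm_pos_iff.mpr hη
  set δ : ℝ := r / (2 * ‖η‖) with hδ
  have hδpos : 0 < δ := by positivity
  have hmem : y + δ • η ∈ KK v := by
    apply hball
    rw [Metric.mem_ball, dist_eq_norm, add_sub_cancel_left, norm_smul, Real.norm_of_nonneg hδpos.le, hδ]
    have : r / (2 * ‖η‖) * ‖η‖ = r / 2 := by field_simp
    rw [this]; linarith
  have h1 := hsub hmem
  have h2 := hsub (interior_subset hy)
  simp only [Set.mem_ofPred_eq] at h1 h2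
  rw [add_dotProduct, h2, smul_dotProduct, smul_eq_mul] at h1
  have h3 : δ * (η ⬝ᵥ η) = 0 := by linarith
  rcases mul_eq_zero.mp h3 with h4 | h4
  · exact hδpos.ne' h4
  · exact hη (dotProduct_self_eq_zero.mp h4)

theorem NDg_cfg {v : Fin m → Fin n → ℝ} (hK : (interior (KK v)).Nonempty) {ε : ℝ} :
    NDg (om m ε) (Pt v) := by
  intro η hη
  have h0 : (fun k => η (Sum.inl k)) = 0 := by
    refine span_of_interior hK _ fun a b => ?_
    have := hη 0 (a, a) (b, b) (by simp [om, Wt]) (by simp [om, Wt])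
    simpa [Pt, dotProduct, Fintype.sum_sum_type] using this
  have h1 : (fun k => η (Sum.inr k)) = 0 := by
    refine span_of_interior hK _ fun a b => ?_
    have := hη 1 (a, a) (b, b) (by simp [om, Wt]) (by simp [om, Wt])
    simpa [Pt, dotProduct, Fintype.sum_sum_type] using this
  funext k
  rcases k with k | k
  · exact congrFun h0 k
  · exact congrFun h1 k

/-- linear embeddings -/
def L0 (n : ℕ) : (Fin n → ℝ) →ₗ[ℝ] (Fin n ⊕ Fin n → ℝ) where
  toFun a := Sum.elim a 0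
  map_add' a b := by funext k; rcases k with k | k <;> simp
  map_smul' c a := by funext k; rcases k with k | k <;> simp

def L1 (n : ℕ) : (Fin n → ℝ) →ₗ[ℝ] (Fin n ⊕ Fin n → ℝ) where
  toFun a := Sum.elim 0 a
  map_add' a b := by funext k; rcases k with k | k <;> simp
  map_smul' c a := by funext k; rcases k with k | k <;> simp

def L2 (n : ℕ) : (Fin n → ℝ) →ₗ[ℝ] (Fin n ⊕ Fin n → ℝ) where
  toFun a := Sum.elim a a
  map_add' a b := by funext k; rcases k with k | k <;> simp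
  map_smul' c a := by funext k; rcases k with k | k <;> simp

def L3 (n : ℕ) : ((Fin n → ℝ) × (Fin n → ℝ)) →ₗ[ℝ] (Fin n ⊕ Fin n → ℝ) where
  toFun a := Sum.elim a.1 a.2
  map_add' a b := by funext k; rcases k with k | k <;> simp
  map_smul' c a := by funext k; rcases k with k | k <;> simp

theorem hull0 (v : Fin m → Fin n → ℝ) (ε : ℝ) :
    convexHull ℝ (Pt v 0 '' {r | 0 < om m ε 0 r}) = L0 n '' KK v := by
  unfold KK
  rw [LinearMap.image_convexHull]
  congr 1
  ext q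
  constructor
  · rintro ⟨r, -, rfl⟩
    exact ⟨v r.1, ⟨r.1, rfl⟩, by simp [Pt, L0]⟩
  · rintro ⟨_, ⟨a, rfl⟩, rfl⟩
    exact ⟨(a, a), by simp [om, Wt], by simp [Pt, L0]⟩

theorem hull1 (v : Fin m → Fin n → ℝ) (ε : ℝ) :
    convexHull ℝ (Pt v 1 '' {r | 0 < om m ε 1 r}) = L1 n '' KK v := by
  unfold KK
  rw [LinearMap.image_convexHull]
  congr 1
  ext q
  constructor
  · rintro ⟨r, -, rfl⟩
    exact ⟨v r.2, ⟨r.2, rfl⟩, by simp [Pt, L1]⟩
  · rintro ⟨_, ⟨a, rfl⟩, rfl⟩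
    exact ⟨(a, a), by simp [om, Wt], by simp [Pt, L1]⟩

theorem hull2_zero (v : Fin m → Fin n → ℝ) :
    convexHull ℝ (Pt v 2 '' {r | 0 < om m 0 2 r}) = L2 n '' KK v := by
  unfold KK
  rw [LinearMap.image_convexHull]
  congr 1
  ext q
  constructor
  · rintro ⟨r, hr, rfl⟩
    have : r.1 = r.2 := by
      simp only [om, if_true, Set.mem_ofPred_eq] at hr
      exact (Wt_zero_pos_iff r).mp hr
    exact ⟨v r.1, ⟨r.1, rfl⟩, by simp [Pt, L2, this]⟩
  · rintro ⟨_, ⟨a, rfl⟩, rfl⟩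
    exact ⟨(a, a), by simp [om, Wt], by simp [Pt, L2]⟩

theorem hull2_pos (v : Fin m → Fin n → ℝ) {ε : ℝ} (hε : 0 < ε) :
    convexHull ℝ (Pt v 2 '' {r | 0 < om m ε 2 r}) = L3 n '' (KK v ×ˢ KK v) := by
  unfold KK
  rw [← convexHull_prod, LinearMap.image_convexHull]
  congr 1
  ext q
  constructor
  · rintro ⟨r, -, rfl⟩
    exact ⟨(v r.1, v r.2), ⟨⟨r.1, rfl⟩, ⟨r.2, rfl⟩⟩, by simp [Pt, L3]⟩
  · rintro ⟨⟨_, _⟩, ⟨⟨a, rfl⟩, ⟨b, rfl⟩⟩, rfl⟩
    exact ⟨(a, b), by simpa [om] using Wt_pos hε (a, b), by simp [Pt, L3]⟩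

/-- splitting a vector on `Fin n ⊕ Fin n` -/
def spl (n : ℕ) : (Fin n ⊕ Fin n → ℝ) ≃ᵐ (Fin n → ℝ) × (Fin n → ℝ) :=
  MeasurableEquiv.sumPiEquivProdPi (fun _ => ℝ)

theorem spl_apply (q : Fin n ⊕ Fin n → ℝ) : spl n q = (fun k => q (Sum.inl k), fun k => q (Sum.inr k)) := rfl

theorem spl_mp (n : ℕ) : MeasurePreserving (spl n) volume volume :=
  volume_measurePreserving_sumPiEquivProdPi (fun _ => ℝ)

theorem QQ_pos {x : Fin 3 → ℝ} (hx : ∀ τ, 0 < x τ) (v : Fin m → Fin n → ℝ) {ε : ℝ} (hε : 0 < ε) :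
    QQ x (om m ε) (Pt v) = spl n ⁻¹' (((x 0 + x 2) • KK v) ×ˢ ((x 1 + x 2) • KK v)) := by
  have hc : Convex ℝ (KK v) := convex_convexHull ℝ _
  ext q
  rw [Set.mem_preimage, spl_apply, Set.mem_prod]
  constructor
  · rintro ⟨y, hy, rfl⟩
    have h0 := hy 0
    have h1 := hy 1
    have h2 := hy 2
    rw [hull0] at h0
    rw [hull1] at h1
    rw [hull2_pos v hε] at h2
    obtain ⟨a, ha, e0⟩ := h0
    obtain ⟨b, hb, e1⟩ := h1
    obtain ⟨c, hc', e2⟩ := h2
    constructor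
    · rw [hc.add_smul (hx 0).le (hx 2).le]
      refine Set.mem_add.mpr ⟨x 0 • a, Set.smul_mem_smul_set ha, x 2 • c.1, Set.smul_mem_smul_set hc'.1, ?_⟩
      funext k
      simp [Fin.sum_univ_three, ← e0, ← e1, ← e2, L0, L1, L3]
    · rw [hc.add_smul (hx 1).le (hx 2).le]
      refine Set.mem_add.mpr ⟨x 1 • b, Set.smul_mem_smul_set hb, x 2 • c.2, Set.smul_mem_smul_set hc'.2, ?_⟩
      funext k
      simp [Fin.sum_univ_three, ← e0, ← e1, ← e2, L0, L1, L3]
  · rintro ⟨⟨a, ha, e0⟩, ⟨b, hb, e1⟩⟩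
    refine ⟨fun τ => if τ = 0 then L0 n a else if τ = 1 then L1 n b else L3 n (a, b), ?_, ?_⟩
    · intro τ
      fin_cases τ
      · simp only [Fin.zero_eta, Fin.isValue, if_true]
        rw [hull0]; exact ⟨a, ha, rfl⟩
      · simp only [Fin.mk_one, Fin.isValue, one_ne_zero, if_false, if_true]
        rw [hull1]; exact ⟨b, hb, rfl⟩
      · simp only [Fin.reduceFinMk, Fin.isValue, Fin.reduceEq, if_false]
        rw [hull2_pos v hε]; exact ⟨(a, b), ⟨ha, hb⟩, rfl⟩
    · funext k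
      rcases k with k | k
      · have := congrFun e0 k
        simp only [Pi.smul_apply, smul_eq_mul] at this
        simp [Fin.sum_univ_three, L0, L1, L3, ← this]
        ring
      · have := congrFun e1 k
        simp only [Pi.smul_apply, smul_eq_mul] at this
        simp [Fin.sum_univ_three, L0, L1, L3, ← this]
        ring

theorem vol_QQ_pos {x : Fin 3 → ℝ} (hx : ∀ τ, 0 < x τ) (v : Fin m → Fin n → ℝ) {ε : ℝ} (hε : 0 < ε) :
    (volume (QQ x (om m ε) (Pt v))).toReal =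
      ((x 0 + x 2) * (x 1 + x 2)) ^ n * (volume (KK v)).toReal ^ 2 := by
  rw [QQ_pos hx v hε, (spl_mp n).measure_preimage_equiv]
  rw [Measure.volume_eq_prod, Measure.prod_prod, Measure.addHaar_smul, Measure.addHaar_smul]
  simp only [Module.finrank_fintype_fun_eq_card, Fintype.card_fin, ENNReal.toReal_mul]
  rw [ENNReal.toReal_ofReal (abs_nonneg _), ENNReal.toReal_ofReal (abs_nonneg _),
    abs_of_nonneg (pow_nonneg (by linarith [hx 0, hx 2]) _), abs_of_nonneg (pow_nonneg (by linarith [hx 1, hx 2]) _),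
    mul_pow]
  ring

end Pool.Agent.TH650.GB
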