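import Mathlib
import Pool.Agent.TH650.GB.Config

/-! # The degenerate configuration `K × 0`, `0 × K`, diagonal of `K` -/

set_option autoImplicit false
set_option linter.unusedSectionVars false

open Finset Matrix MeasureTheory Set Filter Topology
open scoped Pointwise

noncomputable section

namespace Pool.Agent.TH650.GB

variable {n m : ℕ}

/-- the sheared set -/
def RR (v : Fin m → Fin n → ℝ) (s t u : ℝ) : Set ((Fin n → ℝ) × (Fin n → ℝ)) :=
  (fun w : (Fin n → ℝ) × (Fin n → ℝ) × (Fin n → ℝ) => (s • w.1 - t • w.2.1, t • w.2.1 + u • w.2.2)) ''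
    (KK v ×ˢ KK v ×ˢ KK v)

theorem KK_compact (v : Fin m → Fin n → ℝ) : IsCompact (KK v) := (Set.finite_range v).isCompact_convexHull ℝ

theorem RR_compact (v : Fin m → Fin n → ℝ) (s t u : ℝ) : IsCompact (RR v s t u) := by
  refine IsCompact.image ((KK_compact v).prod ((KK_compact v).prod (KK_compact v))) ?_
  fun_prop

theorem QQ_zero (x : Fin 3 → ℝ) (v : Fin m → Fin n → ℝ) :
    QQ x (om m 0) (Pt v) =
      spl n ⁻¹' ((fun z : (Fin n → ℝ) × (Fin n → ℝ) => (z.1 - z.2, z.2)) ⁻¹' RR v (x 0) (x 1) (x 2)) := by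
  ext q
  rw [Set.mem_preimage, Set.mem_preimage, spl_apply]
  constructor
  · rintro ⟨y, hy, rfl⟩
    have h0 := hy 0
    have h1 := hy 1
    have h2 := hy 2
    rw [hull0] at h0
    rw [hull1] at h1
    rw [hull2_zero v] at h2
    obtain ⟨a, ha, e0⟩ := h0
    obtain ⟨b, hb, e1⟩ := h1
    obtain ⟨c, hc, e2⟩ := h2
    refine ⟨(a, b, c), ⟨ha, hb, hc⟩, ?_⟩
    refine Prod.ext ?_ ?_
    · funext k
      simp [Fin.sum_univ_three, ← e0, ← e1, ← e2, L0, L1, L2]
    · funext k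
      simp [Fin.sum_univ_three, ← e0, ← e1, ← e2, L0, L1, L2]
  · rintro ⟨⟨a, b, c⟩, ⟨ha, hb, hc⟩, he⟩
    simp only [Prod.mk.injEq] at he
    obtain ⟨e0, e1⟩ := he
    refine ⟨fun τ => if τ = 0 then L0 n a else if τ = 1 then L1 n b else L2 n c, ?_, ?_⟩
    · intro τ
      fin_cases τ
      · simp only [Fin.zero_eta, Fin.isValue, if_true]
        rw [hull0]; exact ⟨a, ha, rfl⟩
      · simp only [Fin.mk_one, Fin.isValue, one_ne_zero, if_false, if_true]
        rw [hull1]; exact ⟨b, hb, rfl⟩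
      · simp only [Fin.reduceFinMk, Fin.isValue, Fin.reduceEq, if_false]
        rw [hull2_zero v]; exact ⟨c, hc, rfl⟩
    · funext k
      rcases k with k | k
      · have h0 := congrFun e0 k
        have h1 := congrFun e1 k
        simp only [Pi.smul_apply, smul_eq_mul, Pi.sub_apply, Pi.add_apply] at h0 h1
        simp [Fin.sum_univ_three, L0, L1, L2]
        linarith
      · have h1 := congrFun e1 k
        simp only [Pi.smul_apply, smul_eq_mul, Pi.sub_apply, Pi.add_apply] at h1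
        simp [Fin.sum_univ_three, L0, L1, L2]
        linarith

/-- the difference body -/
abbrev DD (v : Fin m → Fin n → ℝ) (s t : ℝ) : Set (Fin n → ℝ) := s • KK v + t • (-(KK v))

theorem DD_compact (v : Fin m → Fin n → ℝ) (s t : ℝ) : IsCompact (DD v s t) :=
  ((KK_compact v).smul s).add ((KK_compact v).neg.smul t)

theorem vol_QQ_zero (x : Fin 3 → ℝ) (v : Fin m → Fin n → ℝ) :
    volume (QQ x (om m 0) (Pt v)) = ∫⁻ z, volume (Prod.mk z ⁻¹' RR v (x 0) (x 1) (x 2)) := by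
  have hmeas : MeasurableSet (RR v (x 0) (x 1) (x 2)) := (RR_compact v _ _ _).measurableSet
  rw [QQ_zero, (spl_mp n).measure_preimage_equiv, Measure.volume_eq_prod,
    (measurePreserving_sub_prod (volume : Measure (Fin n → ℝ)) (volume : Measure (Fin n → ℝ))).measure_preimage
      hmeas.nullMeasurableSet, Measure.prod_apply hmeas]

theorem vol_QQ_zero_ge {x : Fin 3 → ℝ} (hx : ∀ τ, 0 < x τ) (v : Fin m → Fin n → ℝ) :
    ENNReal.ofReal (x 2 ^ n) * volume (KK v) * volume (DD v (x 0) (x 1)) ≤ volume (QQ x (om m 0) (Pt v)) := by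
  rw [vol_QQ_zero]
  have h1 : ∀ z ∈ DD v (x 0) (x 1), ENNReal.ofReal (x 2 ^ n) * volume (KK v) ≤
      volume (Prod.mk z ⁻¹' RR v (x 0) (x 1) (x 2)) := by
    rintro z hz
    obtain ⟨_, ⟨a, ha, rfl⟩, _, ⟨b, hb, rfl⟩, rfl⟩ := Set.mem_add.mp hz
    have hb' : -b ∈ KK v := Set.mem_neg.mp hb
    have h2 : (x 1 • (-b)) +ᵥ (x 2 • KK v) ⊆ Prod.mk (x 0 • a + x 1 • b) ⁻¹' RR v (x 0) (x 1) (x 2) := by
      rintro _ ⟨_, ⟨c, hc, rfl⟩, rfl⟩
      exact ⟨(a, -b, c), ⟨ha, hb', hc⟩, by simp⟩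
    refine le_trans (le_of_eq ?_) (measure_mono h2)
    rw [measure_vadd, Measure.addHaar_smul, Module.finrank_fintype_fun_eq_card, Fintype.card_fin,
      abs_of_nonneg (pow_nonneg (hx 2).le _)]
  calc ENNReal.ofReal (x 2 ^ n) * volume (KK v) * volume (DD v (x 0) (x 1))
      = ∫⁻ _ in DD v (x 0) (x 1), ENNReal.ofReal (x 2 ^ n) * volume (KK v) := by
        rw [setLIntegral_const]
    _ ≤ ∫⁻ z in DD v (x 0) (x 1), volume (Prod.mk z ⁻¹' RR v (x 0) (x 1) (x 2)) :=
        setLIntegral_mono' (DD_compact v _ _).measurableSet h1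
    _ ≤ _ := setLIntegral_le_lintegral _ _

theorem vol_QQ_zero_le {x : Fin 3 → ℝ} (hx : ∀ τ, 0 < x τ) (v : Fin m → Fin n → ℝ) :
    volume (QQ x (om m 0) (Pt v)) ≤
      ENNReal.ofReal ((x 1 + x 2) ^ n) * volume (KK v) * volume (DD v (x 0) (x 1)) := by
  have hc : Convex ℝ (KK v) := convex_convexHull ℝ _
  rw [vol_QQ_zero]
  have h1 : ∀ z, volume (Prod.mk z ⁻¹' RR v (x 0) (x 1) (x 2)) ≤
      (DD v (x 0) (x 1)).indicator (fun _ => ENNReal.ofReal ((x 1 + x 2) ^ n) * volume (KK v)) z := by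
    intro z
    by_cases hz : z ∈ DD v (x 0) (x 1)
    · rw [Set.indicator_of_mem hz]
      have h2 : Prod.mk z ⁻¹' RR v (x 0) (x 1) (x 2) ⊆ (x 1 + x 2) • KK v := by
        rintro y ⟨⟨a, b, c⟩, ⟨ha, hb, hc'⟩, he⟩
        simp only [Prod.mk.injEq] at he
        rw [hc.add_smul (hx 1).le (hx 2).le, ← he.2]
        exact Set.add_mem_add (Set.smul_mem_smul_set hb) (Set.smul_mem_smul_set hc')
      refine (measure_mono h2).trans (le_of_eq ?_)
      rw [Measure.addHaar_smul, Module.finrank_fintype_fun_eq_card, Fintype.card_fin,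
        abs_of_nonneg (pow_nonneg (by linarith [hx 1, hx 2]) _)]
    · rw [Set.indicator_of_notMem hz]
      have h2 : Prod.mk z ⁻¹' RR v (x 0) (x 1) (x 2) = ∅ := by
        rw [Set.eq_empty_iff_forall_notMem]
        rintro y ⟨⟨a, b, c⟩, ⟨ha, hb, hc'⟩, he⟩
        simp only [Prod.mk.injEq] at he
        apply hz
        rw [← he.1, sub_eq_add_neg, ← smul_neg]
        exact Set.add_mem_add (Set.smul_mem_smul_set ha) (Set.smul_mem_smul_set (Set.neg_mem_neg.mpr hb))
      rw [h2, measure_empty]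
  calc ∫⁻ z, volume (Prod.mk z ⁻¹' RR v (x 0) (x 1) (x 2))
      ≤ ∫⁻ z, (DD v (x 0) (x 1)).indicator (fun _ => ENNReal.ofReal ((x 1 + x 2) ^ n) * volume (KK v)) z :=
        lintegral_mono h1
    _ = _ := by
        rw [lintegral_indicator (DD_compact v _ _).measurableSet, setLIntegral_const]

end Pool.Agent.TH650.GB
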