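import Mathlib
import Pool.Agent.TH650.GB.Diag

/-! # The core inequality for polytopes -/

set_option autoImplicit false
set_option linter.unusedSectionVars false

open Finset Matrix MeasureTheory Set Filter Topology
open scoped Pointwise

noncomputable section

namespace Pool.Agent.TH650.GB

variable {n m : ℕ}

/-- index type of the expansion -/
abbrev IX (n m : ℕ) := Fin n ⊕ Fin n → Fin 3 × ((Fin m × Fin m) × (Fin m × Fin m))

/-- number of entries of type `τ` -/
def cn (τ : Fin 3) (I : IX n m) : ℕ := (Finset.univ.filter fun a => (I a).1 = τ).card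

theorem prod_cn (x : Fin 3 → ℝ) (I : IX n m) :
    ∏ a, x (I a).1 = x 0 ^ cn 0 I * x 1 ^ cn 1 I * x 2 ^ cn 2 I := by
  have h1 : ∀ a, x (I a).1 = ∏ τ : Fin 3, if (I a).1 = τ then x τ else 1 := by
    intro a
    rw [Finset.prod_ite_eq]
    simp
  simp_rw [h1]
  rw [Finset.prod_comm, Fin.prod_univ_three]
  simp only [Finset.prod_ite, Finset.prod_const, one_pow, mul_one, cn]

theorem cn_sum (I : IX n m) : cn 0 I + cn 1 I + cn 2 I = 2 * n := by
  have h1 : ∀ a : Fin n ⊕ Fin n, (1:ℕ) = ∑ τ : Fin 3, if (I a).1 = τ then 1 else 0 := by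
    intro a
    rw [Finset.sum_ite_eq]
    simp
  have h2 : ∑ _a : Fin n ⊕ Fin n, (1:ℕ) = 2 * n := by
    simp [Fintype.card_sum]; ring
  rw [← h2, Finset.sum_congr rfl fun a _ => h1 a, Finset.sum_comm, Fin.sum_univ_three]
  simp only [cn, Finset.sum_boole, Nat.cast_id]

/-- real coefficient sums -/
def Jr (v : Fin m → Fin n → ℝ) (ε : ℝ) (I : IX n m) : ℝ := (JI (om m ε) (Pt v) I).toReal

def J2 (v : Fin m → Fin n → ℝ) (ε : ℝ) (i l : ℕ) : ℝ :=
  ∑ I ∈ Finset.univ.filter (fun I : IX n m => cn 0 I = i ∧ cn 1 I = l), Jr v ε I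

theorem Jr_nonneg (v : Fin m → Fin n → ℝ) (ε : ℝ) (I : IX n m) : 0 ≤ Jr v ε I := ENNReal.toReal_nonneg

theorem J2_nonneg (v : Fin m → Fin n → ℝ) (ε : ℝ) (i l : ℕ) : 0 ≤ J2 v ε i l :=
  Finset.sum_nonneg fun _ _ => Jr_nonneg _ _ _

theorem KK_fin (v : Fin m → Fin n → ℝ) : volume (KK v) < ⊤ := (KK_compact v).measure_lt_top

theorem fin_pos (v : Fin m → Fin n → ℝ) {ε : ℝ} (hε : 0 < ε) :
    volume (QQ (fun _ => (1:ℝ)) (om m ε) (Pt v)) < ⊤ := by
  rw [QQ_pos (fun _ => one_pos) v hε, (spl_mp n).measure_preimage_equiv, Measure.volume_eq_prod,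
    Measure.prod_prod]
  refine ENNReal.mul_lt_top ?_ ?_
  · exact ((KK_compact v).smul _).measure_lt_top
  · exact ((KK_compact v).smul _).measure_lt_top

theorem fin_zero (v : Fin m → Fin n → ℝ) :
    volume (QQ (fun _ => (1:ℝ)) (om m 0) (Pt v)) < ⊤ :=
  (vol_QQ_zero_le (fun _ => one_pos) v).trans_lt (ENNReal.mul_lt_top
    (ENNReal.mul_lt_top ENNReal.ofReal_lt_top (KK_fin v)) (DD_compact v _ _).measure_lt_top)

theorem sum_group (f : IX n m → ℝ) (s t : ℝ) :
    ∑ I : IX n m, s ^ cn 0 I * t ^ cn 1 I * f I = ∑ i ∈ Finset.range (2 * n + 1), ∑ l ∈ Finset.range (2 * n + 1),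
      (∑ I ∈ Finset.univ.filter (fun I : IX n m => cn 0 I = i ∧ cn 1 I = l), f I) * t ^ l * s ^ i := by
  have h1 : ∀ I : IX n m, s ^ cn 0 I * t ^ cn 1 I * f I =
      ∑ i ∈ Finset.range (2 * n + 1), ∑ l ∈ Finset.range (2 * n + 1),
        (if cn 0 I = i ∧ cn 1 I = l then f I else 0) * t ^ l * s ^ i := by
    intro I
    have hs := cn_sum I
    rw [Finset.sum_eq_single (cn 0 I)]
    · rw [Finset.sum_eq_single (cn 1 I)]
      · simp; ring
      · intro l _ hl
        rw [if_neg (fun h => hl h.2.symm)]; simp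
      · intro h; exact absurd (Finset.mem_range.mpr (by omega)) h
    · intro i _ hi
      refine Finset.sum_eq_zero fun l _ => ?_
      rw [if_neg (fun h => hi h.1.symm)]; simp
    · intro h; exact absurd (Finset.mem_range.mpr (by omega)) h
  simp_rw [h1]
  rw [Finset.sum_comm]
  refine Finset.sum_congr rfl fun i _ => ?_
  rw [Finset.sum_comm]
  refine Finset.sum_congr rfl fun l _ => ?_
  rw [← Finset.sum_mul, ← Finset.sum_mul, Finset.sum_filter]

theorem J2_pos_eq {v : Fin m → Fin n → ℝ} (hK : (interior (KK v)).Nonempty) {ε : ℝ} (hε : 0 < ε) {i l : ℕ}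
    (hi : i < 2 * n + 1) (hl : l < 2 * n + 1) :
    J2 v ε i l = ((2 * n).factorial : ℝ) * (volume (KK v)).toReal ^ 2 * (n.choose i) * (n.choose l) := by
  have hm := m_pos hK
  set V := (volume (KK v)).toReal
  have hcard : Fintype.card (Fin n ⊕ Fin n) = 2 * n := by simp [Fintype.card_sum]; ring
  have hbin : ∀ s : ℝ, (s + 1) ^ n = ∑ i ∈ Finset.range (2 * n + 1), (n.choose i : ℝ) * s ^ i := by
    intro s
    rw [add_pow]
    have hsub : Finset.range (n + 1) ⊆ Finset.range (2 * n + 1) := Finset.range_subset_range.mpr (by omega)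
    rw [← Finset.sum_subset hsub]
    · refine Finset.sum_congr rfl fun j _ => ?_
      simp; ring
    · intro j _ hj
      have : n < j := by
        by_contra hcon
        exact hj (Finset.mem_range.mpr (by omega))
      rw [Nat.choose_eq_zero_of_lt this]; simp
  have key : ∀ s t : ℝ, 0 < s → 0 < t →
      ∑ i ∈ Finset.range (2 * n + 1), (∑ l ∈ Finset.range (2 * n + 1), J2 v ε i l * t ^ l) * s ^ i =
      ∑ i ∈ Finset.range (2 * n + 1), (((2 * n).factorial : ℝ) * V ^ 2 * (n.choose i) * (t + 1) ^ n) * s ^ i := by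
    intro s t hs ht
    let x : Fin 3 → ℝ := ![s, t, 1]
    have hx : ∀ τ, 0 < x τ := by
      intro τ; fin_cases τ <;> simp [x, hs, ht]
    have h := expand_real hx (om_adm hm hε.le) (NDg_cfg (v := v) hK) (fin_pos v hε)
    rw [hcard, vol_QQ_pos hx v hε] at h
    have e1 : ∀ I : IX n m, (∏ a, x (I a).1) * (JI (om m ε) (Pt v) I).toReal = s ^ cn 0 I * t ^ cn 1 I * Jr v ε I := by
      intro I
      rw [prod_cn]; simp [x, Jr]
    simp_rw [e1] at h
    rw [sum_group] at h
    have e2 : ∑ i ∈ Finset.range (2 * n + 1), (∑ l ∈ Finset.range (2 * n + 1), J2 v ε i l * t ^ l) * s ^ i =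
        ∑ i ∈ Finset.range (2 * n + 1), ∑ l ∈ Finset.range (2 * n + 1),
      (∑ I ∈ Finset.univ.filter (fun I : IX n m => cn 0 I = i ∧ cn 1 I = l), Jr v ε I) * t ^ l * s ^ i := by
      refine Finset.sum_congr rfl fun i _ => ?_
      rw [Finset.sum_mul]
      rfl
    rw [e2, h]
    have e3 : (x 0 + x 2) * (x 1 + x 2) = (s + 1) * (t + 1) := by simp [x]
    rw [e3, mul_pow, hbin s]
    rw [Finset.sum_mul, Finset.sum_mul, Finset.mul_sum]
    refine Finset.sum_congr rfl fun i _ => ?_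
    ring
  have key2 : ∀ t : ℝ, 0 < t → ∑ l ∈ Finset.range (2 * n + 1), J2 v ε i l * t ^ l =
      ∑ l ∈ Finset.range (2 * n + 1), (((2 * n).factorial : ℝ) * V ^ 2 * (n.choose i) * (n.choose l)) * t ^ l := by
    intro t ht
    have h := coef_eq (M := 2 * n + 1) (fun i => ∑ l ∈ Finset.range (2 * n + 1), J2 v ε i l * t ^ l)
      (fun i => ((2 * n).factorial : ℝ) * V ^ 2 * (n.choose i) * (t + 1) ^ n) (fun s hs => key s t hs ht) i hi
    have h' : ∑ l ∈ Finset.range (2 * n + 1), J2 v ε i l * t ^ l =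
      ((2 * n).factorial : ℝ) * V ^ 2 * (n.choose i) * (t + 1) ^ n := h
    rw [h', hbin t, Finset.mul_sum]
    exact Finset.sum_congr rfl fun l _ => by ring
  exact coef_eq (M := 2 * n + 1) (fun l => J2 v ε i l)
    (fun l => ((2 * n).factorial : ℝ) * V ^ 2 * (n.choose i) * (n.choose l)) key2 l hl

theorem tendsto_mu_om (hm : 0 < m) (p : Fin m × Fin m → Fin n ⊕ Fin n → ℝ) (τ : Fin 3) (r : Fin m × Fin m)
    (ξ : Fin n ⊕ Fin n → ℝ) :
    Tendsto (fun ε : ℝ => mu (om m ε τ) p r ξ) (𝓝 0) (𝓝 (mu (om m 0 τ) p r ξ)) := by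
  have hom : ∀ r : Fin m × Fin m, Continuous fun ε : ℝ => om m ε τ r := by
    intro r
    by_cases h1 : τ = 2 <;> by_cases h2 : r.1 = r.2 <;> simp only [om, Wt, h1, h2, if_true, if_false] <;> fun_prop
  have hZ : Continuous fun ε : ℝ => Zf (om m ε τ) p ξ := by
    unfold Zf
    exact continuous_finsetSum _ fun r _ => (hom r).mul continuous_const
  have hne : Zf (om m 0 τ) p ξ ≠ 0 := (Zf_pos (om_adm hm le_rfl τ) p ξ).ne'
  have hcont : ContinuousAt (fun ε : ℝ => mu (om m ε τ) p r ξ) 0 := by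
    unfold mu
    exact ((hom r).mul continuous_const).continuousAt.div hZ.continuousAt hne
  exact hcont

theorem tendsto_fI (hm : 0 < m) (v : Fin m → Fin n → ℝ) (I : IX n m) (ξ : Fin n ⊕ Fin n → ℝ) :
    Tendsto (fun ε : ℝ => fI (om m ε) (Pt v) I ξ) (𝓝 0) (𝓝 (fI (om m 0) (Pt v) I ξ)) := by
  unfold fI
  refine Tendsto.mul_const _ ?_
  refine tendsto_finsetProd _ fun a _ => ?_
  exact ((tendsto_mu_om hm _ _ _ ξ).mul (tendsto_mu_om hm _ _ _ ξ)).div_const 2

theorem J2_zero_le {v : Fin m → Fin n → ℝ} (hK : (interior (KK v)).Nonempty) {i l : ℕ}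
    (hi : i < 2 * n + 1) (hl : l < 2 * n + 1) :
    J2 v 0 i l ≤ ((2 * n).factorial : ℝ) * (volume (KK v)).toReal ^ 2 * (n.choose i) * (n.choose l) := by
  have hm := m_pos hK
  set C : ℝ := ((2 * n).factorial : ℝ) * (volume (KK v)).toReal ^ 2 * (n.choose i) * (n.choose l) with hC
  have hC0 : 0 ≤ C := by positivity
  set A := Finset.univ.filter (fun I : IX n m => cn 0 I = i ∧ cn 1 I = l) with hA
  let Ft : ℝ → (Fin n ⊕ Fin n → ℝ) → ENNReal := fun ε ξ => ∑ I ∈ A, ENNReal.ofReal (fI (om m ε) (Pt v) I ξ)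
  have hmeas : ∀ ε : ℝ, 0 ≤ ε → ∀ I ∈ A, Measurable fun ξ => ENNReal.ofReal (fI (om m ε) (Pt v) I ξ) :=
    fun ε hε I _ => (continuous_fI (om_adm hm hε) (Pt v) I).measurable.ennreal_ofReal
  have hint : ∀ ε : ℝ, 0 ≤ ε → ∫⁻ ξ, Ft ε ξ = ∑ I ∈ A, JI (om m ε) (Pt v) I := by
    intro ε hε
    exact lintegral_finsetSum _ (hmeas ε hε)
  have hreal : ∀ ε : ℝ, (∀ I : IX n m, JI (om m ε) (Pt v) I < ⊤) →
      ∑ I ∈ A, JI (om m ε) (Pt v) I = ENNReal.ofReal (J2 v ε i l) := by
    intro ε hfin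
    unfold J2 Jr
    rw [ENNReal.ofReal_sum_of_nonneg fun _ _ => ENNReal.toReal_nonneg]
    exact Finset.sum_congr rfl fun I _ => (ENNReal.ofReal_toReal (hfin I).ne).symm
  let e : ℕ → ℝ := fun k => 1 / ((k : ℝ) + 1)
  have hepos : ∀ k, 0 < e k := fun k => by positivity
  have he0 : Tendsto e atTop (𝓝 0) := tendsto_one_div_add_atTop_nhds_zero_nat
  have hfatou := lintegral_liminf_le (μ := (volume : Measure (Fin n ⊕ Fin n → ℝ))) (f := fun (k : ℕ) => Ft (e k))
    (fun k => Finset.measurable_fun_sum _ (hmeas _ (hepos k).le)) (u := atTop)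
  have hlim : ∀ ξ, liminf (fun k => Ft (e k) ξ) atTop = Ft 0 ξ := by
    intro ξ
    have h1 : Tendsto (fun k => Ft (e k) ξ) atTop (𝓝 (Ft 0 ξ)) := by
      refine tendsto_finsetSum _ fun I _ => ?_
      exact ENNReal.tendsto_ofReal ((tendsto_fI hm v I ξ).comp he0)
    exact h1.liminf_eq
  simp_rw [hlim] at hfatou
  rw [hint 0 le_rfl, hreal 0 (JI_lt_top (om_adm hm le_rfl) (NDg_cfg hK) (fin_zero v))] at hfatou
  have hconst : ∀ k, ∫⁻ ξ, Ft (e k) ξ = ENNReal.ofReal C := by
    intro k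
    rw [hint _ (hepos k).le, hreal _ (JI_lt_top (om_adm hm (hepos k).le) (NDg_cfg hK) (fin_pos v (hepos k))),
      J2_pos_eq hK (hepos k) hi hl]
  simp_rw [hconst] at hfatou
  rw [liminf_const] at hfatou
  exact (ENNReal.ofReal_le_ofReal_iff hC0).mp hfatou

theorem vol_KK_pos {v : Fin m → Fin n → ℝ} (hK : (interior (KK v)).Nonempty) : 0 < (volume (KK v)).toReal := by
  refine ENNReal.toReal_pos ?_ (KK_fin v).ne
  exact (MeasureTheory.Measure.measure_pos_of_nonempty_interior volume hK).ne'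

/-- **Core**: for a polytope `K` with nonempty interior, `|s K - t K|` is a polynomial whose coefficients are
at most those of a simplex. -/
theorem core {v : Fin m → Fin n → ℝ} (hK : (interior (convexHull ℝ (Set.range v))).Nonempty) :
    ∃ d : ℕ → ℝ, (∀ s t : ℝ, 0 < s → 0 < t →
        (volume (s • convexHull ℝ (Set.range v) + t • (-(convexHull ℝ (Set.range v))))).toReal =
          ∑ j ∈ Finset.range (n + 1), d j * s ^ (n - j) * t ^ j) ∧
      ∀ j, j ≤ n → 0 ≤ d j ∧ d j ≤ ((n.choose j : ℕ) : ℝ) ^ 2 * (volume (convexHull ℝ (Set.range v))).toReal := by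
  have hm := m_pos hK
  set V := (volume (KK v)).toReal with hV
  have hVpos : 0 < V := vol_KK_pos hK
  have hfac : (0:ℝ) < ((2 * n).factorial : ℝ) := by exact_mod_cast Nat.factorial_pos _
  have hcard : Fintype.card (Fin n ⊕ Fin n) = 2 * n := by simp [Fintype.card_sum]; ring
  refine ⟨fun j => J2 v 0 (n - j) j / (((2 * n).factorial : ℝ) * V), ?_, ?_⟩
  · intro s t hs ht
    set c : ℝ := ((2 * n).factorial : ℝ) * V * (volume (DD v s t)).toReal with hc
    let g : ℕ → ℝ := fun k => ∑ I ∈ Finset.univ.filter (fun I : IX n m => cn 2 I = k), s ^ cn 0 I * t ^ cn 1 I * Jr v 0 I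
    have hg : ∀ k, 0 ≤ g k := fun k => Finset.sum_nonneg fun I _ =>
      mul_nonneg (mul_nonneg (pow_nonneg hs.le _) (pow_nonneg ht.le _)) (Jr_nonneg _ _ _)
    have hexp : ∀ u : ℝ, 0 < u → ∑ k ∈ Finset.range (2 * n + 1), g k * u ^ k =
        ((2 * n).factorial : ℝ) * (volume (QQ ![s, t, u] (om m 0) (Pt v))).toReal := by
      intro u hu
      have hx : ∀ τ, 0 < (![s, t, u] : Fin 3 → ℝ) τ := by
        intro τ; fin_cases τ <;> simp [hs, ht, hu]
      have h := expand_real hx (om_adm hm le_rfl) (NDg_cfg (v := v) hK) (fin_zero v)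
      rw [hcard] at h
      rw [← h]
      have e1 : ∀ I : IX n m, (∏ a, (![s, t, u] : Fin 3 → ℝ) (I a).1) * (JI (om m 0) (Pt v) I).toReal =
          ∑ k ∈ Finset.range (2 * n + 1), if cn 2 I = k then (s ^ cn 0 I * t ^ cn 1 I * Jr v 0 I) * u ^ k else 0 := by
        intro I
        have hs' := cn_sum I
        rw [Finset.sum_ite_eq, if_pos (Finset.mem_range.mpr (by omega)), prod_cn]
        simp [Jr]; ring
      simp_rw [e1]
      rw [Finset.sum_comm]
      refine Finset.sum_congr rfl fun k _ => ?_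
      rw [Finset.sum_mul, Finset.sum_filter]
    have hDfin : volume (DD v s t) < ⊤ := (DD_compact v s t).measure_lt_top
    have hlo : ∀ u : ℝ, 0 < u → c * u ^ n ≤ ∑ k ∈ Finset.range (2 * n + 1), g k * u ^ k := by
      intro u hu
      have hx : ∀ τ, 0 < (![s, t, u] : Fin 3 → ℝ) τ := by
        intro τ; fin_cases τ <;> simp [hs, ht, hu]
      rw [hexp u hu]
      have h := ENNReal.toReal_mono ?_ (vol_QQ_zero_ge hx v)
      · simp only [ENNReal.toReal_mul] at h
        have e0 : (![s, t, u] : Fin 3 → ℝ) 0 = s := rfl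
        have e1 : (![s, t, u] : Fin 3 → ℝ) 1 = t := rfl
        have e2 : (![s, t, u] : Fin 3 → ℝ) 2 = u := rfl
        rw [e0, e1, e2, ENNReal.toReal_ofReal (pow_nonneg hu.le _)] at h
        calc c * u ^ n = ((2 * n).factorial : ℝ) * (u ^ n * (volume (KK v)).toReal * (volume (DD v s t)).toReal) := by
              rw [hc]; ring
          _ ≤ _ := mul_le_mul_of_nonneg_left h hfac.le
      · refine ((vol_QQ_zero_le hx v).trans_lt ?_).ne
        exact ENNReal.mul_lt_top (ENNReal.mul_lt_top ENNReal.ofReal_lt_top (KK_fin v)) (DD_compact v _ _).measure_lt_top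
    have hup : ∀ u : ℝ, 0 < u → ∑ k ∈ Finset.range (2 * n + 1), g k * u ^ k ≤ c * (t + u) ^ n := by
      intro u hu
      have hx : ∀ τ, 0 < (![s, t, u] : Fin 3 → ℝ) τ := by
        intro τ; fin_cases τ <;> simp [hs, ht, hu]
      rw [hexp u hu]
      have h := ENNReal.toReal_mono ?_ (vol_QQ_zero_le hx v)
      · simp only [ENNReal.toReal_mul] at h
        have e0 : (![s, t, u] : Fin 3 → ℝ) 0 = s := rfl
        have e1 : (![s, t, u] : Fin 3 → ℝ) 1 = t := rfl
        have e2 : (![s, t, u] : Fin 3 → ℝ) 2 = u := rfl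
        rw [e0, e1, e2, ENNReal.toReal_ofReal (pow_nonneg (by linarith) _)] at h
        calc _ ≤ ((2 * n).factorial : ℝ) * ((t + u) ^ n * (volume (KK v)).toReal * (volume (DD v s t)).toReal) :=
              mul_le_mul_of_nonneg_left h hfac.le
          _ = c * (t + u) ^ n := by rw [hc]; ring
      · exact (ENNReal.mul_lt_top (ENNReal.mul_lt_top ENNReal.ofReal_lt_top (KK_fin v))
          (DD_compact v _ _).measure_lt_top).ne
    have hgn := coef_sandwich (M := 2 * n + 1) (n := n) (by omega) g hg c t hlo hup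
    have hg2 : g n = ∑ j ∈ Finset.range (n + 1), J2 v 0 (n - j) j * s ^ (n - j) * t ^ j := by
      simp only [g]
      have e1 : ∀ I ∈ Finset.univ.filter (fun I : IX n m => cn 2 I = n), s ^ cn 0 I * t ^ cn 1 I * Jr v 0 I =
          ∑ j ∈ Finset.range (n + 1), if cn 1 I = j then Jr v 0 I * s ^ (n - j) * t ^ j else 0 := by
        intro I hI
        have hs' := cn_sum I
        have hI2 := (Finset.mem_filter.mp hI).2
        rw [Finset.sum_ite_eq, if_pos (Finset.mem_range.mpr (by omega))]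
        have : cn 0 I = n - cn 1 I := by omega
        rw [this]; ring
      rw [Finset.sum_congr rfl e1, Finset.sum_comm]
      refine Finset.sum_congr rfl fun j hj => ?_
      have hj' := Finset.mem_range.mp hj
      unfold J2
      rw [Finset.sum_mul, Finset.sum_mul, ← Finset.sum_filter, Finset.filter_filter]
      refine Finset.sum_congr ?_ fun I _ => rfl
      ext I
      have hs' := cn_sum I
      simp only [Finset.mem_filter, Finset.mem_univ, true_and]
      omega
    have hfin : (volume (DD v s t)).toReal = g n / (((2 * n).factorial : ℝ) * V) := by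
      rw [hgn, hc]
      field_simp
    change (volume (DD v s t)).toReal = _
    rw [hfin, hg2, Finset.sum_div]
    exact Finset.sum_congr rfl fun j _ => by ring
  · intro j hj
    refine ⟨div_nonneg (J2_nonneg _ _ _ _) (by positivity), ?_⟩
    have h := J2_zero_le hK (i := n - j) (l := j) (by omega) (by omega)
    rw [Nat.choose_symm hj] at h
    rw [div_le_iff₀ (by positivity)]
    calc J2 v 0 (n - j) j ≤ _ := h
      _ = _ := by ring

end Pool.Agent.TH650.GB
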